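import Mathlib

set_option autoImplicit false
set_option linter.unusedSimpArgs false
set_option linter.unusedVariables false

/-!
# The algebra of the idempotent of an invertible element
-/

namespace Pool.Agent.H139.LG13

section Alg

variable {A : Type*} [Ring A]

/-- the idempotent -/
def qq (t U V : A) : Matrix (Fin 2) (Fin 2) A := !![1 - t, t * U; (1 - t) * V, t]

/-- its differential -/
def dq (t θ U V dU dV : A) : Matrix (Fin 2) (Fin 2) A :=
  !![-θ, θ * U + t * dU; -(θ * V) + (1 - t) * dV, θ]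

theorem qq00 (t U V : A) : qq t U V 0 0 = 1 - t := rfl
theorem qq01 (t U V : A) : qq t U V 0 1 = t * U := rfl
theorem qq10 (t U V : A) : qq t U V 1 0 = (1 - t) * V := rfl
theorem qq11 (t U V : A) : qq t U V 1 1 = t := rfl
theorem dq00 (t θ U V dU dV : A) : dq t θ U V dU dV 0 0 = -θ := rfl
theorem dq01 (t θ U V dU dV : A) : dq t θ U V dU dV 0 1 = θ * U + t * dU := rfl
theorem dq10 (t θ U V dU dV : A) : dq t θ U V dU dV 1 0 = -(θ * V) + (1 - t) * dV := rfl
theorem dq11 (t θ U V dU dV : A) : dq t θ U V dU dV 1 1 = θ := rfl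

theorem mat_ext {R : Type*} {M N : Matrix (Fin 2) (Fin 2) R} (h00 : M 0 0 = N 0 0)
    (h01 : M 0 1 = N 0 1) (h10 : M 1 0 = N 1 0) (h11 : M 1 1 = N 1 1) : M = N := by
  ext i j
  revert i j
  rw [Fin.forall_fin_two]
  exact ⟨by rw [Fin.forall_fin_two]; exact ⟨h00, h01⟩, by rw [Fin.forall_fin_two]; exact ⟨h10, h11⟩⟩

/-- the column -/
def co (V : A) : Fin 2 → A := ![1, V]

/-- the row -/
def ro (t U : A) : Fin 2 → A := ![1 - t, t * U]

theorem qq_eq {t U V : A} (htV : V * t = t * V) (hVU : V * U = 1) (i j : Fin 2) :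
    qq t U V i j = co V i * ro t U j := by
  have e : V * (t * U) = t := by rw [← mul_assoc, htV, mul_assoc, hVU, mul_one]
  have e2 : (1 - t) * V = V * (1 - t) := by rw [sub_mul, mul_sub, one_mul, mul_one, htV]
  fin_cases i <;> fin_cases j <;>
    simp [qq, co, ro, e, e2]

theorem ro_co {t U V : A} (htV : U * t = t * U) (hUV : U * V = 1) :
    ∑ j, ro t U j * co V j = 1 := by
  rw [Fin.sum_univ_two]
  simp [ro, co, mul_assoc, hUV]

theorem qq_mul {t U V : A} (htU : U * t = t * U) (htV : V * t = t * V) (hUV : U * V = 1)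
    (hVU : V * U = 1) : qq t U V * qq t U V = qq t U V := by
  ext i j
  rw [Matrix.mul_apply]
  have e : ∀ k, qq t U V i k * qq t U V k j = co V i * (ro t U k * co V k) * ro t U j := by
    intro k
    rw [qq_eq htV hVU, qq_eq htV hVU]
    noncomm_ring
  rw [Finset.sum_congr rfl fun k _ => e k, ← Finset.sum_mul, ← Finset.mul_sum, ro_co htU hUV,
    mul_one, ← qq_eq htV hVU]

variable {t θ U V dU dV : A}

/-- the row times the square of the differential -/
theorem ro_dq (tU : U * t = t * U) (tV : V * t = t * V) (tdV : dV * t = t * dV)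
    (tθ : θ * t = t * θ) (hθ : θ * θ = 0) (θU : U * θ = θ * U) (θV : V * θ = θ * V)
    (θdV : dV * θ = -(θ * dV)) (hUV : U * V = 1) (hVU : V * U = 1) (hdU : dU = -(U * (dV * U)))
    (l : Fin 2) : ∑ j, ro t U j * (dq t θ U V dU dV * dq t θ U V dU dV) j l =
      (θ * (U * dV) - (t * (1 - t)) * ((U * dV) * (U * dV))) * ro t U l := by
  subst hdU
  have tU' : ∀ x, U * (t * x) = t * (U * x) := fun x => by rw [← mul_assoc, tU, mul_assoc]
  have tV' : ∀ x, V * (t * x) = t * (V * x) := fun x => by rw [← mul_assoc, tV, mul_assoc]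
  have tdV' : ∀ x, dV * (t * x) = t * (dV * x) := fun x => by rw [← mul_assoc, tdV, mul_assoc]
  have tθ' : ∀ x, θ * (t * x) = t * (θ * x) := fun x => by rw [← mul_assoc, tθ, mul_assoc]
  have hθ' : ∀ x, θ * (θ * x) = 0 := fun x => by rw [← mul_assoc, hθ, zero_mul]
  have θU' : ∀ x, U * (θ * x) = θ * (U * x) := fun x => by rw [← mul_assoc, θU, mul_assoc]
  have θV' : ∀ x, V * (θ * x) = θ * (V * x) := fun x => by rw [← mul_assoc, θV, mul_assoc]
  have θdV' : ∀ x, dV * (θ * x) = -(θ * (dV * x)) := fun x => by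
    rw [← mul_assoc, θdV, neg_mul, mul_assoc]
  have hUV' : ∀ x, U * (V * x) = x := fun x => by rw [← mul_assoc, hUV, one_mul]
  have hVU' : ∀ x, V * (U * x) = x := fun x => by rw [← mul_assoc, hVU, one_mul]
  rw [Fin.sum_univ_two, Matrix.mul_apply, Matrix.mul_apply, Fin.sum_univ_two, Fin.sum_univ_two]
  fin_cases l
  · simp [ro, dq, mul_add, add_mul, mul_assoc, sub_eq_add_neg, tU, tV, tdV, tθ, hθ, θU, θV, θdV,
      hUV, hVU, tU', tV', tdV', tθ', hθ', θU', θV', θdV', hUV', hVU']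
    abel
  · simp [ro, dq, mul_add, add_mul, mul_assoc, sub_eq_add_neg, tU, tV, tdV, tθ, hθ, θU, θV, θdV,
      hUV, hVU, tU', tV', tdV', tθ', hθ', θU', θV', θdV', hUV', hVU']
    abel

/-- the powers -/
theorem qq_dq (tU : U * t = t * U) (tV : V * t = t * V) (tdV : dV * t = t * dV)
    (tθ : θ * t = t * θ) (hθ : θ * θ = 0) (θU : U * θ = θ * U) (θV : V * θ = θ * V)
    (θdV : dV * θ = -(θ * dV)) (hUV : U * V = 1) (hVU : V * U = 1) (hdU : dU = -(U * (dV * U)))
    (k : ℕ) : ∀ i l : Fin 2, (qq t U V * dq t θ U V dU dV ^ (2 * k)) i l =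
      co V i * (θ * (U * dV) - (t * (1 - t)) * ((U * dV) * (U * dV))) ^ k * ro t U l := by
  induction k with
  | zero =>
    intro i l
    rw [mul_zero, pow_zero, mul_one, pow_zero, mul_one, qq_eq tV hVU]
  | succ k ih =>
    intro i l
    rw [mul_add, mul_one, pow_add, ← mul_assoc, Matrix.mul_apply]
    have e : ∀ j, (qq t U V * dq t θ U V dU dV ^ (2 * k)) i j * (dq t θ U V dU dV ^ 2) j l =
        co V i * (θ * (U * dV) - (t * (1 - t)) * ((U * dV) * (U * dV))) ^ k *
          (ro t U j * (dq t θ U V dU dV * dq t θ U V dU dV) j l) := by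
      intro j
      rw [ih, sq, mul_assoc]
    rw [Finset.sum_congr rfl fun j _ => e j, ← Finset.mul_sum,
      ro_dq tU tV tdV tθ hθ θU θV θdV hUV hVU hdU, pow_succ]
    simp only [mul_assoc]

/-- the powers of `θ a - s a²` -/
theorem phi_pow {θ a s : A} (hs : ∀ x : A, s * x = x * s) (hθ : θ * θ = 0)
    (ha : a * θ = -(θ * a)) (k : ℕ) :
    (θ * a - s * (a * a)) ^ (k + 1) = (-s) ^ (k + 1) * a ^ (2 * (k + 1)) +
      ((k + 1 : ℕ) : A) * ((-s) ^ k * (θ * a ^ (2 * k + 1))) := by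
  induction k with
  | zero =>
    simp [sq]
    abel
  | succ k ih =>
    have h1 : ∀ m : ℕ, a ^ (2 * m) * θ = θ * a ^ (2 * m) := by
      intro m
      induction m with
      | zero => simp
      | succ m im =>
        rw [mul_add, mul_one, pow_add, mul_assoc, sq, mul_assoc, ha, mul_neg, ← mul_assoc a, ha,
          neg_mul, neg_neg, ← mul_assoc, ← mul_assoc, im]
        simp only [mul_assoc]
    have h2 : ∀ m : ℕ, a ^ (2 * m + 1) * θ = -(θ * a ^ (2 * m + 1)) := by
      intro m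
      rw [pow_succ, mul_assoc, ha, mul_neg, ← mul_assoc, h1, mul_assoc]
    have hns : ∀ (m : ℕ) (x : A), (-s) ^ m * x = x * (-s) ^ m := by
      intro m x
      have : Commute (-s) x := (show Commute s x from hs x).neg_left
      exact (this.pow_left m)
    have e1 : (-s) ^ (k + 1) * a ^ (2 * (k + 1)) * (θ * a) =
        (-s) ^ (k + 1) * (θ * a ^ (2 * (k + 1) + 1)) := by
      rw [mul_assoc, ← mul_assoc (a ^ (2 * (k + 1))), h1, mul_assoc, ← pow_succ]
    have e2 : (-s) ^ (k + 1) * a ^ (2 * (k + 1)) * (s * (a * a)) =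
        -((-s) ^ (k + 2) * a ^ (2 * (k + 2))) := by
      have e3 : a ^ (2 * (k + 2)) = a ^ (2 * (k + 1)) * (a * a) := by
        rw [← sq, ← pow_add]
        congr 1
      rw [e3, pow_succ (-s) (k + 1)]
      have e4 : a ^ (2 * (k + 1)) * (s * (a * a)) = s * (a ^ (2 * (k + 1)) * (a * a)) := by
        rw [← mul_assoc, ← hs, mul_assoc]
      rw [mul_assoc, e4, mul_assoc ((-s) ^ (k + 1)), neg_mul, mul_neg, neg_neg]
    have e5 : (-s) ^ k * (θ * a ^ (2 * k + 1)) * (θ * a) = 0 := by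
      rw [mul_assoc, mul_assoc θ, ← mul_assoc (a ^ (2 * k + 1)), h2, neg_mul, mul_neg, mul_assoc θ,
        ← mul_assoc θ θ, hθ, zero_mul, neg_zero, mul_zero]
    have e6 : (-s) ^ k * (θ * a ^ (2 * k + 1)) * (s * (a * a)) =
        -((-s) ^ (k + 1) * (θ * a ^ (2 * (k + 1) + 1))) := by
      have e7 : a ^ (2 * (k + 1) + 1) = a ^ (2 * k + 1) * (a * a) := by
        rw [← sq, ← pow_add]
        congr 1
      have e8 : θ * a ^ (2 * k + 1) * (s * (a * a)) = s * (θ * a ^ (2 * k + 1) * (a * a)) := by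
        rw [← mul_assoc, ← hs, mul_assoc]
      rw [e7, pow_succ (-s) k, mul_assoc, e8, mul_assoc ((-s) ^ k), neg_mul, mul_neg, neg_neg]
      simp only [mul_assoc]
    rw [pow_succ, ih, add_mul, mul_sub, mul_sub, e1, e2, mul_assoc ((k + 1 : ℕ) : A), e5,
      mul_assoc ((k + 1 : ℕ) : A), e6, mul_zero, zero_sub, mul_neg, neg_neg, sub_neg_eq_add]
    push_cast
    noncomm_ring

end Alg

end Pool.Agent.H139.LG13
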