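import Pool.Agent.H139.LG.Poly

set_option autoImplicit false

/-!
# Matrices of forms on the interval with boundary conditions
-/

namespace Pool.Agent.H139.LG13

open Pool.Agent.H416.LG

universe u v w

variable {Ω : Type v} [Ring Ω] {ε : Ω →+* Ω}

/-- the value at `0` -/
noncomputable def f0 : DD ε →+* Ω := e0.comp DD.fst

/-- the value at `1` -/
noncomputable def f1 : DD ε →+* Ω := e1.comp DD.fst

theorem f0_ep (x : DD ε) : f0 (DD.ep x) = ε (f0 x) := e0_map ε x.a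
theorem f1_ep (x : DD ε) : f1 (DD.ep x) = ε (f1 x) := e1_map ε x.a
theorem f0_dl (δ : Ω →+ Ω) (x : DD ε) : f0 (DD.dl δ x) = δ (f0 x) := e0_cw δ x.a
theorem f1_dl (δ : Ω →+ Ω) (x : DD ε) : f1 (DD.dl δ x) = δ (f1 x) := e1_cw δ x.a

/-- the integers -/
def ZZ (Ω : Type v) [Ring Ω] : Subring Ω := (Int.castRingHom Ω).range

theorem ZZ_ep (ε : Ω →+* Ω) {x : Ω} (hx : x ∈ ZZ Ω) : ε x ∈ ZZ Ω := by
  obtain ⟨n, rfl⟩ := hx
  exact ⟨n, (map_intCast ε n).symm⟩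

theorem ZZ_dl {ε : Ω →+* Ω} {δ : Ω →+ Ω} (h : ∀ a b, δ (a * b) = δ a * b + ε a * δ b) {x : Ω}
    (hx : x ∈ ZZ Ω) : δ x = 0 := by
  obtain ⟨n, rfl⟩ := hx
  have h1 : δ 1 = 0 := by
    have h2 := h 1 1
    rw [mul_one, mul_one, map_one ε, one_mul] at h2
    exact left_eq_add.1 h2
  rw [eq_intCast, ← zsmul_one, map_zsmul, h1, zsmul_zero]

theorem ZZ_T {ε : Ω →+* Ω} {T : Ω →+ ℚ} (h : ∀ a, T (ε a) = -T a) {x : Ω}
    (hx : x ∈ ZZ Ω) : T x = 0 := by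
  obtain ⟨n, rfl⟩ := hx
  have h1 : T 1 = 0 := by
    have h2 := h 1
    rw [map_one] at h2
    linarith
  rw [eq_intCast, ← zsmul_one, map_zsmul, h1, zsmul_zero]

/-- The boundary conditions: lower triangular at `0`, upper triangular at `1`, integral diagonals. -/
noncomputable def Bd (ε : Ω →+* Ω) : Subring (Matrix (Fin 2) (Fin 2) (DD ε)) where
  carrier := {X | f0 (X 0 1) = 0 ∧ f1 (X 1 0) = 0 ∧ f0 (X 0 0) ∈ ZZ Ω ∧ f0 (X 1 1) ∈ ZZ Ω ∧
    f1 (X 0 0) ∈ ZZ Ω ∧ f1 (X 1 1) ∈ ZZ Ω}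
  mul_mem' := by
    rintro X Y ⟨x1, x2, x3, x4, x5, x6⟩ ⟨y1, y2, y3, y4, y5, y6⟩
    refine ⟨?_, ?_, ?_, ?_, ?_, ?_⟩
    · rw [Matrix.mul_apply, Fin.sum_univ_two, map_add, map_mul, map_mul, x1, y1, mul_zero, zero_mul,
        add_zero]
    · rw [Matrix.mul_apply, Fin.sum_univ_two, map_add, map_mul, map_mul, x2, y2, mul_zero, zero_mul,
        add_zero]
    · rw [Matrix.mul_apply, Fin.sum_univ_two, map_add, map_mul, map_mul, x1, zero_mul, add_zero]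
      exact mul_mem x3 y3
    · rw [Matrix.mul_apply, Fin.sum_univ_two, map_add, map_mul, map_mul, y1, mul_zero, zero_add]
      exact mul_mem x4 y4
    · rw [Matrix.mul_apply, Fin.sum_univ_two, map_add, map_mul, map_mul, y2, mul_zero, add_zero]
      exact mul_mem x5 y5
    · rw [Matrix.mul_apply, Fin.sum_univ_two, map_add, map_mul, map_mul, x2, zero_mul, zero_add]
      exact mul_mem x6 y6
  one_mem' := by
    refine ⟨?_, ?_, ?_, ?_, ?_, ?_⟩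
    · rw [Matrix.one_apply_ne (by decide), map_zero]
    · rw [Matrix.one_apply_ne (by decide), map_zero]
    · rw [Matrix.one_apply_eq, map_one]
      exact one_mem _
    · rw [Matrix.one_apply_eq, map_one]
      exact one_mem _
    · rw [Matrix.one_apply_eq, map_one]
      exact one_mem _
    · rw [Matrix.one_apply_eq, map_one]
      exact one_mem _
  add_mem' := by
    rintro X Y ⟨x1, x2, x3, x4, x5, x6⟩ ⟨y1, y2, y3, y4, y5, y6⟩
    refine ⟨?_, ?_, ?_, ?_, ?_, ?_⟩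
    · rw [Matrix.add_apply, map_add, x1, y1, add_zero]
    · rw [Matrix.add_apply, map_add, x2, y2, add_zero]
    · rw [Matrix.add_apply, map_add]
      exact add_mem x3 y3
    · rw [Matrix.add_apply, map_add]
      exact add_mem x4 y4
    · rw [Matrix.add_apply, map_add]
      exact add_mem x5 y5
    · rw [Matrix.add_apply, map_add]
      exact add_mem x6 y6
  zero_mem' := by
    refine ⟨?_, ?_, ?_, ?_, ?_, ?_⟩ <;> rw [Matrix.zero_apply, map_zero]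
    all_goals exact zero_mem _
  neg_mem' := by
    rintro X ⟨x1, x2, x3, x4, x5, x6⟩
    refine ⟨?_, ?_, ?_, ?_, ?_, ?_⟩
    · rw [Matrix.neg_apply, map_neg, x1, neg_zero]
    · rw [Matrix.neg_apply, map_neg, x2, neg_zero]
    · rw [Matrix.neg_apply, map_neg]
      exact neg_mem x3
    · rw [Matrix.neg_apply, map_neg]
      exact neg_mem x4
    · rw [Matrix.neg_apply, map_neg]
      exact neg_mem x5
    · rw [Matrix.neg_apply, map_neg]
      exact neg_mem x6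

theorem mem_Bd {X : Matrix (Fin 2) (Fin 2) (DD ε)} : X ∈ Bd ε ↔ f0 (X 0 1) = 0 ∧
    f1 (X 1 0) = 0 ∧ f0 (X 0 0) ∈ ZZ Ω ∧ f0 (X 1 1) ∈ ZZ Ω ∧ f1 (X 0 0) ∈ ZZ Ω ∧
    f1 (X 1 1) ∈ ZZ Ω := Iff.rfl

theorem ep_mem {X : Matrix (Fin 2) (Fin 2) (DD ε)} (hX : X ∈ Bd ε) :
    X.map DD.ep ∈ Bd ε := by
  obtain ⟨x1, x2, x3, x4, x5, x6⟩ := hX
  refine ⟨?_, ?_, ?_, ?_, ?_, ?_⟩
  · rw [Matrix.map_apply, f0_ep, x1, map_zero]
  · rw [Matrix.map_apply, f1_ep, x2, map_zero]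
  · rw [Matrix.map_apply, f0_ep]
    exact ZZ_ep ε x3
  · rw [Matrix.map_apply, f0_ep]
    exact ZZ_ep ε x4
  · rw [Matrix.map_apply, f1_ep]
    exact ZZ_ep ε x5
  · rw [Matrix.map_apply, f1_ep]
    exact ZZ_ep ε x6

theorem dl_mem {δ : Ω →+ Ω} (h : ∀ a b, δ (a * b) = δ a * b + ε a * δ b)
    {X : Matrix (Fin 2) (Fin 2) (DD ε)} (hX : X ∈ Bd ε) : X.map (DD.dl δ) ∈ Bd ε := by
  obtain ⟨x1, x2, x3, x4, x5, x6⟩ := hX
  refine ⟨?_, ?_, ?_, ?_, ?_, ?_⟩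
  · rw [Matrix.map_apply, f0_dl, x1, map_zero]
  · rw [Matrix.map_apply, f1_dl, x2, map_zero]
  · rw [Matrix.map_apply, f0_dl, ZZ_dl h x3]
    exact zero_mem _
  · rw [Matrix.map_apply, f0_dl, ZZ_dl h x4]
    exact zero_mem _
  · rw [Matrix.map_apply, f1_dl, ZZ_dl h x5]
    exact zero_mem _
  · rw [Matrix.map_apply, f1_dl, ZZ_dl h x6]
    exact zero_mem _

/-- the parity on `Bd` -/
noncomputable def epB (ε : Ω →+* Ω) : Bd ε →+* Bd ε where
  toFun X := ⟨X.1.map DD.ep, ep_mem X.2⟩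
  map_one' := Subtype.ext (map_one (DD.ep (ε := ε)).mapMatrix)
  map_mul' X Y := Subtype.ext (map_mul (DD.ep (ε := ε)).mapMatrix X.1 Y.1)
  map_zero' := Subtype.ext (map_zero (DD.ep (ε := ε)).mapMatrix)
  map_add' X Y := Subtype.ext (map_add (DD.ep (ε := ε)).mapMatrix X.1 Y.1)

/-- the differential on `Bd` -/
noncomputable def dlB (δ : Ω →+ Ω) (h : ∀ a b, δ (a * b) = δ a * b + ε a * δ b) :
    Bd ε →+ Bd ε where
  toFun X := ⟨X.1.map (DD.dl δ), dl_mem h X.2⟩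
  map_zero' := Subtype.ext (map_zero (DD.dl (ε := ε) δ).mapMatrix)
  map_add' X Y := Subtype.ext (map_add (DD.dl (ε := ε) δ).mapMatrix X.1 Y.1)

/-- the functional on `Bd` -/
noncomputable def TB (ε : Ω →+* Ω) (T : Ω →+ ℚ) : Bd ε →+ ℚ where
  toFun X := DD.TT T (X.1 0 0) + DD.TT T (X.1 1 1)
  map_zero' := by
    show DD.TT T ((0 : Matrix (Fin 2) (Fin 2) (DD ε)) 0 0) +
      DD.TT T ((0 : Matrix (Fin 2) (Fin 2) (DD ε)) 1 1) = 0
    rw [Matrix.zero_apply, Matrix.zero_apply, map_zero, add_zero]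
  map_add' X Y := by
    show DD.TT T ((X.1 + Y.1) 0 0) + DD.TT T ((X.1 + Y.1) 1 1) = _
    rw [Matrix.add_apply, Matrix.add_apply, map_add, map_add]
    ring

theorem PC_Bd {δ : Ω →+ Ω} {T : Ω →+ ℚ} (h : PO ε δ T) :
    PC (epB ε) (dlB δ h.leib) (TB ε T) where
  ee X := Subtype.ext (Matrix.ext fun i j => DD.ee h _)
  leib X Y := by
    refine Subtype.ext (Matrix.ext fun i j => ?_)
    show DD.dl δ ((X.1 * Y.1) i j) = ((X.1.map (DD.dl δ) * Y.1) + X.1.map DD.ep * Y.1.map (DD.dl δ)) i j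
    rw [Matrix.add_apply, Matrix.mul_apply, Matrix.mul_apply, Matrix.mul_apply, Fin.sum_univ_two,
      Fin.sum_univ_two, Fin.sum_univ_two, map_add, DD.leib h, DD.leib h]
    simp only [Matrix.map_apply]
    abel
  dd X := Subtype.ext (Matrix.ext fun i j => DD.dd h _)
  de X := Subtype.ext (Matrix.ext fun i j => DD.de h _)
  tr X Y hX := by
    have hX' : ∀ i j, DD.ep (X.1 i j) = X.1 i j := fun i j =>
      congrFun (congrFun (congrArg Subtype.val hX) i) j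
    show DD.TT T ((X.1 * Y.1) 0 0) + DD.TT T ((X.1 * Y.1) 1 1) =
      DD.TT T ((Y.1 * X.1) 0 0) + DD.TT T ((Y.1 * X.1) 1 1)
    simp only [Matrix.mul_apply, Fin.sum_univ_two, map_add]
    rw [DD.tr h _ _ (hX' 0 0), DD.tr h _ _ (hX' 0 1), DD.tr h _ _ (hX' 1 0),
      DD.tr h _ _ (hX' 1 1)]
    ring
  tro X Y hX hY := by
    have hX' : ∀ i j, DD.ep (X.1 i j) = -X.1 i j := fun i j =>
      congrFun (congrFun (congrArg Subtype.val hX) i) j
    have hY' : ∀ i j, DD.ep (Y.1 i j) = -Y.1 i j := fun i j =>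
      congrFun (congrFun (congrArg Subtype.val hY) i) j
    show DD.TT T ((X.1 * Y.1) 0 0) + DD.TT T ((X.1 * Y.1) 1 1) =
      -(DD.TT T ((Y.1 * X.1) 0 0) + DD.TT T ((Y.1 * X.1) 1 1))
    simp only [Matrix.mul_apply, Fin.sum_univ_two, map_add]
    rw [DD.tro h _ _ (hX' 0 0) (hY' 0 0), DD.tro h _ _ (hX' 0 1) (hY' 1 0),
      DD.tro h _ _ (hX' 1 0) (hY' 0 1), DD.tro h _ _ (hX' 1 1) (hY' 1 1)]
    ring
  cl X := by
    obtain ⟨-, -, x3, x4, x5, x6⟩ := X.2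
    show DD.TT T (DD.dl δ (X.1 0 0)) + DD.TT T (DD.dl δ (X.1 1 1)) = 0
    rw [DD.cl h, DD.cl h]
    have h3 : T (e0 (X.1 0 0).a) = 0 := ZZ_T h.odd x3
    have h4 : T (e0 (X.1 1 1).a) = 0 := ZZ_T h.odd x4
    have h5 : T (e1 (X.1 0 0).a) = 0 := ZZ_T h.odd x5
    have h6 : T (e1 (X.1 1 1).a) = 0 := ZZ_T h.odd x6
    rw [h3, h4, h5, h6]
    ring

end Pool.Agent.H139.LG13
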