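import Pool.Agent.H139.LG.Bd
import Pool.Agent.H139.LG.Alg

set_option autoImplicit false

/-!
# From the group ring of matrices to the matrices over the group ring
-/

namespace Pool.Agent.H139.LG13

open MonoidAlgebra
open Pool.Agent.H416.LG
open Pool.Agent.V11187.DG (eT dg eT_add eT_zero eT_single)

universe u v w

section gen

variable {D : Type v} [Ring D] (B : Subring (Matrix (Fin 2) (Fin 2) D)) (G : Type w) [Group G]

/-- from the group ring of matrices to the matrices over the group ring -/
noncomputable def JJ : MonoidAlgebra B G →+* Matrix (Fin 2) (Fin 2) (MonoidAlgebra D G) :=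
  liftNCRingHom ((singleOneRingHom : D →+* MonoidAlgebra D G).mapMatrix.comp B.subtype)
    ((Matrix.scalar (Fin 2)).toMonoidHom.comp (MonoidAlgebra.of D G)) (by
      intro X y
      show (X.1.map fun r => (single 1 r : MonoidAlgebra D G)) *
        (Matrix.diagonal fun _ => (single y 1 : MonoidAlgebra D G)) =
        (Matrix.diagonal fun _ => (single y 1 : MonoidAlgebra D G)) *
        (X.1.map fun r => (single 1 r : MonoidAlgebra D G))
      ext1 i j
      rw [Matrix.mul_diagonal, Matrix.diagonal_mul, Matrix.map_apply, single_mul_single,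
        single_mul_single, one_mul, mul_one, mul_one, one_mul])

variable {B G}

theorem JJ_single (x : G) (r : B) (i j : Fin 2) :
    JJ B G (single x r) i j = single x (r.1 i j) := by
  have h : JJ B G (single x r) = (r.1.map fun r => (single 1 r : MonoidAlgebra D G)) *
      (Matrix.diagonal fun _ => (single x 1 : MonoidAlgebra D G)) := by
    unfold JJ
    exact liftNC_single _ _ _ _
  rw [h, Matrix.mul_diagonal, Matrix.map_apply, single_mul_single, one_mul, mul_one]

theorem JJ_coeff (α : MonoidAlgebra B G) (i j : Fin 2) (x : G) :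
    (JJ B G α i j).coeff x = (α.coeff x).1 i j := by
  induction α using MonoidAlgebra.induction_linear with
  | zero =>
    rw [map_zero, Matrix.zero_apply]
    rfl
  | add a b ha hb =>
    rw [map_add, Matrix.add_apply, coeff_add, coeff_add, Finsupp.add_apply, Finsupp.add_apply, ha,
      hb]
    rfl
  | single y r =>
    classical
    rw [JJ_single, coeff_single, coeff_single, Finsupp.single_apply, Finsupp.single_apply]
    split_ifs
    · rfl
    · rfl

theorem JJ_inj {α β : MonoidAlgebra B G} (h : JJ B G α = JJ B G β) : α = β := by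
  apply coeff_injective
  ext x i j
  rw [← JJ_coeff, ← JJ_coeff, h]

/-- coefficientwise maps -/
noncomputable def cG {R S : Type v} [Ring R] [Ring S] (G : Type w) [Group G] (φ : R →+ S) :
    MonoidAlgebra R G →+ MonoidAlgebra S G where
  toFun α := .ofCoeff (Finsupp.mapRange φ (map_zero φ) α.coeff)
  map_zero' := by
    apply coeff_injective
    ext h
    simp
  map_add' α β := by
    apply coeff_injective
    ext h
    simp

theorem cG_coeff {R S : Type v} [Ring R] [Ring S] (φ : R →+ S) (α : MonoidAlgebra R G) (x : G) :
    (cG G φ α).coeff x = φ (α.coeff x) := rfl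

theorem eT_JJ (T : D →+ ℚ) (TB' : B →+ ℚ) (h : ∀ r : B, TB' r = T (r.1 0 0) + T (r.1 1 1))
    (φ : G → ℤ) (α : MonoidAlgebra B G) :
    eT TB' φ α = eT T φ (JJ B G α 0 0) + eT T φ (JJ B G α 1 1) := by
  induction α using MonoidAlgebra.induction_linear with
  | zero => rw [map_zero, Matrix.zero_apply, Matrix.zero_apply, eT_zero, eT_zero, add_zero]
  | add a b ha hb =>
    rw [map_add, Matrix.add_apply, Matrix.add_apply, eT_add, eT_add, eT_add, ha, hb]
    ring
  | single y r =>
    rw [JJ_single, JJ_single, eT_single, eT_single, eT_single, h, smul_add]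

/-- the class function is a trace on even elements -/
theorem eT_tr {ε : D →+* D} {T : D →+ ℚ} (hee : ∀ x, ε (ε x) = x)
    (h : ∀ x y, ε x = x → T (x * y) = T (y * x)) (g : G)
    (V z : MonoidAlgebra D G) (hV : mapRingHom G ε V = V) :
    eT T (dg g) (V * z) = eT T (dg g) (z * V) := by
  classical
  have h1 : ∀ x y, T (x * y) + T (ε x * y) = T (y * x) + T (y * ε x) := by
    intro x y
    have h2 := h (x + ε x) y (by rw [map_add, hee, add_comm])
    rw [add_mul, mul_add, map_add, map_add] at h2
    exact h2
  have h3 : ∀ V z : MonoidAlgebra D G, eT T (dg g) (V * z) +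
      eT T (dg g) (mapRingHom G ε V * z) = eT T (dg g) (z * V) +
      eT T (dg g) (z * mapRingHom G ε V) := by
    intro V z
    induction V using MonoidAlgebra.induction_linear with
    | zero => rw [map_zero, mul_zero, zero_mul]
    | add a b ha hb =>
      rw [map_add, add_mul, add_mul, mul_add, mul_add, eT_add, eT_add, eT_add, eT_add]
      linarith
    | single x r =>
      induction z using MonoidAlgebra.induction_linear with
      | zero => rw [mul_zero, mul_zero, zero_mul, zero_mul]
      | add a b ha hb =>
        rw [mul_add, mul_add, add_mul, add_mul, eT_add, eT_add, eT_add, eT_add]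
        linarith
      | single y s =>
        rw [mapRingHom_single, single_mul_single, single_mul_single, single_mul_single,
          single_mul_single, eT_single, eT_single, eT_single, eT_single, ← smul_add, ← smul_add,
          h1]
        have h4 : IsConj g (x * y) ↔ IsConj g (y * x) := by
          have h5 : IsConj (x * y) (y * x) := isConj_iff.2 ⟨x⁻¹, by group⟩
          exact ⟨fun h => h.trans h5, fun h => h.trans h5.symm⟩
        have h6 : dg g (x * y) = dg g (y * x) := by
          unfold dg
          by_cases h7 : IsConj g (x * y)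
          · rw [if_pos h7, if_pos (h4.1 h7)]
          · rw [if_neg h7, if_neg fun h => h7 (h4.2 h)]
        rw [h6]
  have h8 := h3 V z
  rw [hV] at h8
  linarith

end gen

section forms

variable {Ω : Type v} [Ring Ω] {ε : Ω →+* Ω} {G : Type w} [Group G]

/-- the coordinate -/
noncomputable def tt (ε : Ω →+* Ω) : DD ε := ⟨Polynomial.X, 0⟩

/-- its differential -/
noncomputable def th (ε : Ω →+* Ω) : DD ε := ⟨0, 1⟩

theorem tt_comm (x : DD ε) : x * tt ε = tt ε * x := by
  refine DD.ext ?_ ?_
  · rw [DD.mul_a, DD.mul_a]
    exact Polynomial.X_mul.symm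
  · rw [DD.mul_b, DD.mul_b]
    show x.a * 0 + x.b * (Polynomial.X : Polynomial Ω).map ε =
      (Polynomial.X : Polynomial Ω) * x.b + 0 * x.a.map ε
    rw [mul_zero, zero_mul, zero_add, add_zero, Polynomial.map_X]
    exact Polynomial.X_mul.symm

theorem th_comm (x : DD ε) : th ε * x = DD.ep x * th ε := by
  refine DD.ext ?_ ?_
  · rw [DD.mul_a, DD.mul_a]
    show 0 * x.a = x.a.map ε * 0
    rw [zero_mul, mul_zero]
  · rw [DD.mul_b, DD.mul_b]
    show 0 * x.b + 1 * x.a.map ε = x.a.map ε * 1 + (-x.b.map ε) * (0 : Polynomial Ω).map ε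
    rw [zero_mul, one_mul, mul_one, Polynomial.map_zero, mul_zero, zero_add, add_zero]

theorem th_th : th ε * th ε = 0 := by
  refine DD.ext ?_ ?_
  · rw [DD.mul_a]
    exact zero_mul _
  · rw [DD.mul_b]
    show 0 * 1 + 1 * (0 : Polynomial Ω).map ε = 0
    rw [zero_mul, Polynomial.map_zero, mul_zero, add_zero]

theorem single_tt_comm (z : MonoidAlgebra (DD ε) G) :
    z * single 1 (tt ε) = single 1 (tt ε) * z := by
  induction z using MonoidAlgebra.induction_linear with
  | zero => rw [mul_zero, zero_mul]
  | add a b ha hb => rw [add_mul, mul_add, ha, hb]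
  | single x r => rw [single_mul_single, single_mul_single, one_mul, mul_one, tt_comm]

theorem single_th_comm (z : MonoidAlgebra (DD ε) G) :
    single 1 (th ε) * z = mapRingHom G DD.ep z * single 1 (th ε) := by
  induction z using MonoidAlgebra.induction_linear with
  | zero => rw [mul_zero, map_zero, zero_mul]
  | add a b ha hb => rw [mul_add, map_add, add_mul, ha, hb]
  | single x r =>
    rw [mapRingHom_single, single_mul_single, single_mul_single, one_mul, mul_one, th_comm]

theorem dG_leib {R : Type v} [Ring R] {η : R →+* R} {d : R →+ R}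
    (h : ∀ a b, d (a * b) = d a * b + η a * d b) (a b : MonoidAlgebra R G) :
    dG G d (a * b) = dG G d a * b + mapRingHom G η a * dG G d b := by
  induction a using MonoidAlgebra.induction_linear with
  | zero => rw [zero_mul, map_zero, map_zero, zero_mul, zero_mul, add_zero]
  | add a a' ha ha' =>
    rw [add_mul, map_add, map_add, ha, ha', map_add, add_mul, add_mul]
    abel
  | single x r =>
    induction b using MonoidAlgebra.induction_linear with
    | zero => rw [mul_zero, map_zero, mul_zero, mul_zero, add_zero]
    | add b b' hb hb' =>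
      rw [mul_add, map_add, map_add, hb, hb', mul_add, mul_add]
      abel
    | single y s =>
      rw [single_mul_single, dG_single, dG_single, dG_single, mapRingHom_single, single_mul_single,
        single_mul_single, h, single_add]

theorem cc_dl (δ : Ω →+ Ω) (x : Ω) : DD.dl (ε := ε) δ (DD.cc x) = DD.cc (δ x) := by
  refine DD.ext ?_ ?_
  · rw [DD.dl_a]
    show cw δ (Polynomial.C x) = Polynomial.C (δ x)
    rw [← Polynomial.monomial_zero_left, ← Polynomial.monomial_zero_left, cw_mon]
  · rw [DD.dl_b]
    show (Polynomial.derivative (Polynomial.C x)).map ε + cw δ 0 = 0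
    rw [Polynomial.derivative_C, Polynomial.map_zero, map_zero, add_zero]

theorem cc_ep (x : Ω) : DD.ep (ε := ε) (DD.cc x) = DD.cc (ε x) := by
  refine DD.ext ?_ ?_
  · rw [DD.ep_a]
    exact Polynomial.map_C _
  · rw [DD.ep_b]
    show -(0 : Polynomial Ω).map ε = 0
    rw [Polynomial.map_zero, neg_zero]

theorem map_cc_dG (δ : Ω →+ Ω) (z : MonoidAlgebra Ω G) :
    dG G (DD.dl (ε := ε) δ) (mapRingHom G DD.cc z) = mapRingHom G DD.cc (dG G δ z) := by
  induction z using MonoidAlgebra.induction_linear with
  | zero => rw [map_zero, map_zero, map_zero, map_zero]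
  | add a b ha hb => rw [map_add, map_add, ha, hb, map_add, map_add]
  | single x r => rw [mapRingHom_single, dG_single, dG_single, mapRingHom_single, cc_dl]

theorem map_cc_ep (z : MonoidAlgebra Ω G) :
    mapRingHom G (DD.ep (ε := ε)) (mapRingHom G DD.cc z) =
      mapRingHom G DD.cc (mapRingHom G ε z) := by
  induction z using MonoidAlgebra.induction_linear with
  | zero => rw [map_zero, map_zero, map_zero, map_zero]
  | add a b ha hb => rw [map_add, map_add, ha, hb, map_add, map_add]
  | single x r => rw [mapRingHom_single, mapRingHom_single, mapRingHom_single, mapRingHom_single,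
      cc_ep]

/-- functions have integral zero -/
theorem eT_fun (T : Ω →+ ℚ) (φ : G → ℤ) (p : Polynomial Ω) (z : MonoidAlgebra Ω G) :
    eT (DD.TT (ε := ε) T) φ (single 1 ⟨p, 0⟩ * mapRingHom G DD.cc z) = 0 := by
  induction z using MonoidAlgebra.induction_linear with
  | zero => rw [map_zero, mul_zero, eT_zero]
  | add a b ha hb => rw [map_add, mul_add, eT_add, ha, hb, add_zero]
  | single x r =>
    rw [mapRingHom_single, single_mul_single, eT_single, DD.TT_eq, DD.mul_b]
    have e : ((⟨p, 0⟩ : DD ε).a * (DD.cc (ε := ε) r).b +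
        (⟨p, 0⟩ : DD ε).b * (DD.cc (ε := ε) r).a.map ε) = 0 := by
      show p * 0 + 0 * _ = 0
      rw [mul_zero, zero_mul, add_zero]
    rw [e, map_zero, smul_zero]

/-- integral of a polynomial with integer coefficients -/
theorem II_int (T : Ω →+ ℚ) (p : Polynomial ℤ) (r : Ω) :
    II T (p.map (Int.castRingHom Ω) * Polynomial.C r) =
      II (Int.castAddHom ℚ) p * T r := by
  induction p using Polynomial.induction_on' with
  | add p q hp hq => rw [Polynomial.map_add, add_mul, map_add, hp, hq, map_add, add_mul]
  | monomial n a =>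
    rw [Polynomial.map_monomial, Polynomial.monomial_mul_C, II_mon, II_mon, eq_intCast,
      ← zsmul_eq_mul, map_zsmul, zsmul_eq_mul, Int.coe_castAddHom]
    ring

theorem eT_form {T : Ω →+ ℚ} (hT : ∀ a, T (ε a) = -T a) (φ : G → ℤ) (p : Polynomial ℤ)
    (z : MonoidAlgebra Ω G) :
    eT (DD.TT (ε := ε) T) φ (single 1 ⟨p.map (Int.castRingHom Ω), 0⟩ *
      (single 1 (th ε) * mapRingHom G DD.cc z)) = -(II (Int.castAddHom ℚ) p * eT T φ z) := by
  induction z using MonoidAlgebra.induction_linear with
  | zero => rw [map_zero, mul_zero, mul_zero, eT_zero, eT_zero, mul_zero, neg_zero]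
  | add a b ha hb =>
    rw [map_add, mul_add, mul_add, eT_add, ha, hb, eT_add]
    ring
  | single x r =>
    rw [mapRingHom_single, single_mul_single, single_mul_single, eT_single, eT_single, DD.TT_eq,
      DD.mul_b, DD.mul_b]
    have e : ((⟨p.map (Int.castRingHom Ω), 0⟩ : DD ε).a *
        ((th ε).a * (DD.cc (ε := ε) r).b + (th ε).b * (DD.cc (ε := ε) r).a.map ε) +
        (⟨p.map (Int.castRingHom Ω), 0⟩ : DD ε).b * (th ε * DD.cc (ε := ε) r).a.map ε) =
        p.map (Int.castRingHom Ω) * Polynomial.C (ε r) := by
      show p.map (Int.castRingHom Ω) * (0 * 0 + 1 * (Polynomial.C r).map ε) + 0 * _ = _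
      rw [zero_mul, zero_mul, one_mul, zero_add, add_zero, Polynomial.map_C]
    rw [e, II_int, hT, one_mul, one_mul, zsmul_eq_mul, zsmul_eq_mul]
    ring

end forms

end Pool.Agent.H139.LG13
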