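import Pool.Agent.H416.LG.Par

set_option autoImplicit false

/-!
# Forms on the interval with coefficients in a differential ring
-/

namespace Pool.Agent.H139.LG13

open Polynomial
open Pool.Agent.H416.LG

universe u v w

section Poly

variable {Ω : Type v} [Ring Ω]

/-- the coefficientwise map -/
noncomputable def cw (δ : Ω →+ Ω) : Polynomial Ω →+ Polynomial Ω where
  toFun p := p.sum fun n a => monomial n (δ a)
  map_zero' := sum_zero_index _
  map_add' p q := by
    refine Polynomial.sum_add_index p q _ (fun n => ?_) (fun n a b => ?_)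
    · rw [map_zero, map_zero]
    · rw [map_add, map_add]

theorem cw_mon (δ : Ω →+ Ω) (n : ℕ) (a : Ω) : cw δ (monomial n a) = monomial n (δ a) := by
  show (monomial n a).sum (fun n a => monomial n (δ a)) = _
  refine sum_monomial_index _ _ ?_
  rw [map_zero, map_zero]

theorem cw_leib {δ : Ω →+ Ω} {ε : Ω →+* Ω} (h : ∀ a b, δ (a * b) = δ a * b + ε a * δ b)
    (p q : Polynomial Ω) : cw δ (p * q) = cw δ p * q + p.map ε * cw δ q := by
  induction p using Polynomial.induction_on' with
  | add p p' hp hp' =>
    rw [add_mul, map_add, map_add, hp, hp', Polynomial.map_add, add_mul, add_mul]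
    abel
  | monomial n a =>
    induction q using Polynomial.induction_on' with
    | add q q' hq hq' =>
      rw [mul_add, map_add, map_add, hq, hq', mul_add, mul_add]
      abel
    | monomial m b =>
      rw [monomial_mul_monomial, cw_mon, cw_mon, cw_mon, map_monomial, monomial_mul_monomial,
        monomial_mul_monomial, h, map_add]

theorem cw_dd {δ : Ω →+ Ω} (h : ∀ a, δ (δ a) = 0) (p : Polynomial Ω) : cw δ (cw δ p) = 0 := by
  induction p using Polynomial.induction_on' with
  | add p p' hp hp' => rw [map_add, map_add, hp, hp', add_zero]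
  | monomial n a => rw [cw_mon, cw_mon, h, map_zero]

theorem cw_de {δ : Ω →+ Ω} {ε : Ω →+* Ω} (h : ∀ a, δ (ε a) = -ε (δ a)) (p : Polynomial Ω) :
    cw δ (p.map ε) = -(cw δ p).map ε := by
  induction p using Polynomial.induction_on' with
  | add p p' hp hp' =>
    rw [Polynomial.map_add, map_add, hp, hp', map_add, Polynomial.map_add]
    abel
  | monomial n a => rw [map_monomial, cw_mon, cw_mon, map_monomial, h, map_neg]

theorem map_ee {ε : Ω →+* Ω} (h : ∀ a, ε (ε a) = a) (p : Polynomial Ω) : (p.map ε).map ε = p := by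
  induction p using Polynomial.induction_on' with
  | add p p' hp hp' => rw [Polynomial.map_add, Polynomial.map_add, hp, hp']
  | monomial n a => rw [map_monomial, map_monomial, h]

theorem cw_der (δ : Ω →+ Ω) (p : Polynomial Ω) : derivative (cw δ p) = cw δ (derivative p) := by
  induction p using Polynomial.induction_on' with
  | add p p' hp hp' => rw [map_add, map_add, hp, hp', map_add, map_add]
  | monomial n a =>
    rw [cw_mon, derivative_monomial, derivative_monomial, cw_mon, ← nsmul_eq_mul', ← nsmul_eq_mul',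
      map_nsmul δ n a]

/-- the integral from `0` to `1` -/
noncomputable def II (T : Ω →+ ℚ) : Polynomial Ω →+ ℚ where
  toFun p := p.sum fun n a => T a / ((n : ℚ) + 1)
  map_zero' := sum_zero_index _
  map_add' p q := by
    refine Polynomial.sum_add_index p q _ (fun n => ?_) (fun n a b => ?_)
    · rw [map_zero, zero_div]
    · rw [map_add, add_div]

theorem II_mon (T : Ω →+ ℚ) (n : ℕ) (a : Ω) : II T (monomial n a) = T a / ((n : ℚ) + 1) := by
  show (monomial n a).sum (fun n a => T a / ((n : ℚ) + 1)) = _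
  refine sum_monomial_index _ _ ?_
  rw [map_zero, zero_div]

theorem II_comm {T : Ω →+ ℚ} (h : ∀ a b, T (a * b) = T (b * a)) (p q : Polynomial Ω) :
    II T (p * q) = II T (q * p) := by
  induction p using Polynomial.induction_on' with
  | add p p' hp hp' => rw [add_mul, mul_add, map_add, map_add, hp, hp']
  | monomial n a =>
    induction q using Polynomial.induction_on' with
    | add q q' hq hq' => rw [add_mul, mul_add, map_add, map_add, hq, hq']
    | monomial m b =>
      rw [monomial_mul_monomial, monomial_mul_monomial, II_mon, II_mon, h, add_comm n m]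

theorem II_odd {T : Ω →+ ℚ} {ε : Ω →+* Ω} (h : ∀ a, T (ε a) = -T a) (p : Polynomial Ω) :
    II T (p.map ε) = -II T p := by
  induction p using Polynomial.induction_on' with
  | add p p' hp hp' => rw [Polynomial.map_add, map_add, map_add, hp, hp', neg_add]
  | monomial n a => rw [map_monomial, II_mon, II_mon, h, neg_div]

theorem II_cl {T : Ω →+ ℚ} {δ : Ω →+ Ω} (h : ∀ a, T (δ a) = 0) (p : Polynomial Ω) :
    II T (cw δ p) = 0 := by
  induction p using Polynomial.induction_on' with
  | add p p' hp hp' => rw [map_add, map_add, hp, hp', add_zero]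
  | monomial n a => rw [cw_mon, II_mon, h, zero_div]

/-- the value at `0` -/
noncomputable def e0 : Polynomial Ω →+* Ω := eval₂RingHom' (RingHom.id Ω) 0 fun _ => Commute.zero_right _

/-- the value at `1` -/
noncomputable def e1 : Polynomial Ω →+* Ω := eval₂RingHom' (RingHom.id Ω) 1 fun _ => Commute.one_right _

theorem e0_mon (n : ℕ) (a : Ω) : e0 (monomial n a) = a * 0 ^ n :=
  eval₂_monomial _ _

theorem e1_mon (n : ℕ) (a : Ω) : e1 (monomial n a) = a :=
  (eval₂_monomial _ _).trans (by rw [one_pow, mul_one, RingHom.id_apply])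

theorem II_der (T : Ω →+ ℚ) (p : Polynomial Ω) : II T (derivative p) = T (e1 p) - T (e0 p) := by
  induction p using Polynomial.induction_on' with
  | add p p' hp hp' =>
    simp only [map_add, hp, hp']
    ring
  | monomial n a =>
    rw [derivative_monomial, II_mon, e0_mon, e1_mon]
    rcases n with _ | n
    · rw [pow_zero, mul_one, sub_self, Nat.cast_zero, mul_zero, map_zero, zero_div]
    · rw [pow_succ, mul_zero, mul_zero, map_zero, sub_zero, ← nsmul_eq_mul', map_nsmul,
        nsmul_eq_mul, Nat.add_sub_cancel]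
      have : ((n : ℚ) + 1) ≠ 0 := by positivity
      push_cast
      field_simp

theorem e0_map (ε : Ω →+* Ω) (p : Polynomial Ω) : e0 (p.map ε) = ε (e0 p) := by
  induction p using Polynomial.induction_on' with
  | add p p' hp hp' => rw [Polynomial.map_add, map_add, map_add, map_add, hp, hp']
  | monomial n a => rw [map_monomial, e0_mon, e0_mon, map_mul, map_pow, map_zero]

theorem e1_map (ε : Ω →+* Ω) (p : Polynomial Ω) : e1 (p.map ε) = ε (e1 p) := by
  induction p using Polynomial.induction_on' with
  | add p p' hp hp' => rw [Polynomial.map_add, map_add, map_add, map_add, hp, hp']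
  | monomial n a => rw [map_monomial, e1_mon, e1_mon]

theorem e0_cw (δ : Ω →+ Ω) (p : Polynomial Ω) : e0 (cw δ p) = δ (e0 p) := by
  induction p using Polynomial.induction_on' with
  | add p p' hp hp' => rw [map_add, map_add, map_add, map_add, hp, hp']
  | monomial n a =>
    rw [cw_mon, e0_mon, e0_mon]
    rcases n with _ | n
    · rw [pow_zero, mul_one, mul_one]
    · rw [pow_succ, mul_zero, mul_zero, mul_zero, map_zero]

theorem e1_cw (δ : Ω →+ Ω) (p : Polynomial Ω) : e1 (cw δ p) = δ (e1 p) := by
  induction p using Polynomial.induction_on' with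
  | add p p' hp hp' => rw [map_add, map_add, map_add, map_add, hp, hp']
  | monomial n a => rw [cw_mon, e1_mon, e1_mon]

end Poly

/-- Forms on the interval: the pair `⟨a, b⟩` is `a + b θ`. -/
@[ext] structure DD {Ω : Type v} [Ring Ω] (ε : Ω →+* Ω) : Type v where
  a : Polynomial Ω
  b : Polynomial Ω

namespace DD

variable {Ω : Type v} [Ring Ω] {ε : Ω →+* Ω}

noncomputable instance : Zero (DD ε) := ⟨⟨0, 0⟩⟩
noncomputable instance : One (DD ε) := ⟨⟨1, 0⟩⟩
noncomputable instance : Add (DD ε) := ⟨fun x y => ⟨x.a + y.a, x.b + y.b⟩⟩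
noncomputable instance : Neg (DD ε) := ⟨fun x => ⟨-x.a, -x.b⟩⟩
noncomputable instance : Mul (DD ε) := ⟨fun x y => ⟨x.a * y.a, x.a * y.b + x.b * y.a.map ε⟩⟩

theorem zero_a' : (0 : DD ε).a = 0 := rfl
theorem zero_b' : (0 : DD ε).b = 0 := rfl
theorem one_a' : (1 : DD ε).a = 1 := rfl
theorem one_b' : (1 : DD ε).b = 0 := rfl
theorem add_a' (x y : DD ε) : (x + y).a = x.a + y.a := rfl
theorem add_b' (x y : DD ε) : (x + y).b = x.b + y.b := rfl
theorem neg_a' (x : DD ε) : (-x).a = -x.a := rfl
theorem neg_b' (x : DD ε) : (-x).b = -x.b := rfl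
theorem mul_a' (x y : DD ε) : (x * y).a = x.a * y.a := rfl
theorem mul_b' (x y : DD ε) : (x * y).b = x.a * y.b + x.b * y.a.map ε := rfl

noncomputable instance : Ring (DD ε) := Ring.ofMinimalAxioms
  (fun x y z => DD.ext (add_assoc _ _ _) (add_assoc _ _ _))
  (fun x => DD.ext (zero_add _) (zero_add _))
  (fun x => DD.ext (neg_add_cancel _) (neg_add_cancel _))
  (fun x y z => DD.ext (mul_assoc _ _ _) (by
    rw [mul_b', mul_b', mul_b', mul_b', mul_a', mul_a', Polynomial.map_mul]
    noncomm_ring))
  (fun x => DD.ext (one_mul _) (by rw [mul_b', one_a', one_b', one_mul, zero_mul, add_zero]))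
  (fun x => DD.ext (mul_one _) (by
    rw [mul_b', one_a', one_b', mul_zero, Polynomial.map_one, mul_one, zero_add]))
  (fun x y z => DD.ext (mul_add _ _ _) (by
    rw [mul_b', add_b', add_a', add_b', mul_b', mul_b', Polynomial.map_add]
    noncomm_ring))
  (fun x y z => DD.ext (add_mul _ _ _) (by
    rw [mul_b', add_b', add_a', add_b', mul_b', mul_b']
    noncomm_ring))

theorem zero_a : (0 : DD ε).a = 0 := rfl
theorem zero_b : (0 : DD ε).b = 0 := rfl
theorem one_a : (1 : DD ε).a = 1 := rfl
theorem one_b : (1 : DD ε).b = 0 := rfl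
theorem add_a (x y : DD ε) : (x + y).a = x.a + y.a := rfl
theorem add_b (x y : DD ε) : (x + y).b = x.b + y.b := rfl
theorem neg_a (x : DD ε) : (-x).a = -x.a := rfl
theorem neg_b (x : DD ε) : (-x).b = -x.b := rfl
theorem mul_a (x y : DD ε) : (x * y).a = x.a * y.a := rfl
theorem mul_b (x y : DD ε) : (x * y).b = x.a * y.b + x.b * y.a.map ε := rfl

/-- the first component -/
noncomputable def fst : DD ε →+* Polynomial Ω where
  toFun := DD.a
  map_one' := rfl
  map_mul' _ _ := rfl
  map_zero' := rfl
  map_add' _ _ := rfl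

/-- the constants -/
noncomputable def cc : Ω →+* DD ε where
  toFun x := ⟨C x, 0⟩
  map_one' := DD.ext (by rw [one_a]; exact map_one _) rfl
  map_mul' x y := DD.ext (by rw [mul_a]; exact map_mul _ _ _) (by
    rw [mul_b, mul_zero, zero_mul, add_zero])
  map_zero' := DD.ext (by rw [zero_a]; exact map_zero _) rfl
  map_add' x y := DD.ext (by rw [add_a]; exact map_add _ _ _) (by rw [add_b, add_zero])

/-- the parity -/
noncomputable def ep : DD ε →+* DD ε where
  toFun x := ⟨x.a.map ε, -x.b.map ε⟩
  map_one' := DD.ext (by simp only [one_a, Polynomial.map_one])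
    (by simp only [one_b, Polynomial.map_zero, neg_zero])
  map_mul' x y := DD.ext (by simp only [mul_a, Polynomial.map_mul]) (by
    simp only [mul_b, Polynomial.map_mul, Polynomial.map_add]
    noncomm_ring)
  map_zero' := DD.ext (by simp only [zero_a, Polynomial.map_zero])
    (by simp only [zero_b, Polynomial.map_zero, neg_zero])
  map_add' x y := DD.ext (by simp only [add_a, Polynomial.map_add])
    (by simp only [add_b, Polynomial.map_add, neg_add])

theorem ep_a (x : DD ε) : (ep x).a = x.a.map ε := rfl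
theorem ep_b (x : DD ε) : (ep x).b = -x.b.map ε := rfl

/-- the differential -/
noncomputable def dl (δ : Ω →+ Ω) : DD ε →+ DD ε where
  toFun x := ⟨cw δ x.a, (derivative x.a).map ε + cw δ x.b⟩
  map_zero' := DD.ext (by simp only [zero_a, map_zero]) (by
    simp only [zero_a, zero_b, map_zero, Polynomial.map_zero, add_zero])
  map_add' x y := DD.ext (by simp only [add_a, map_add]) (by
    simp only [add_a, add_b, map_add, Polynomial.map_add]
    abel)

theorem dl_a (δ : Ω →+ Ω) (x : DD ε) : (dl δ x).a = cw δ x.a := rfl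
theorem dl_b (δ : Ω →+ Ω) (x : DD ε) : (dl δ x).b = (derivative x.a).map ε + cw δ x.b := rfl

/-- the functional -/
noncomputable def TT (T : Ω →+ ℚ) : DD ε →+ ℚ where
  toFun x := II T x.b
  map_zero' := by rw [zero_b, map_zero]
  map_add' x y := by rw [add_b, map_add]

theorem TT_eq (T : Ω →+ ℚ) (x : DD ε) : TT T x = II T x.b := rfl

section laws

variable {δ : Ω →+ Ω} {T : Ω →+ ℚ} (h : PO ε δ T)

include h

theorem ee (x : DD ε) : ep (ep x) = x :=
  DD.ext (by rw [ep_a, ep_a, map_ee h.ee]) (by
    rw [ep_b, ep_b, Polynomial.map_neg, neg_neg, map_ee h.ee])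

theorem leib (x y : DD ε) : dl δ (x * y) = dl δ x * y + ep x * dl δ y := by
  refine DD.ext ?_ ?_
  · rw [dl_a, mul_a, cw_leib h.leib, add_a, mul_a, mul_a, dl_a, ep_a, dl_a]
  · rw [dl_b, mul_a, mul_b, add_b, mul_b, mul_b, dl_a, dl_b, dl_b, dl_a, ep_a, ep_b, map_add,
      cw_leib h.leib, cw_leib h.leib, derivative_mul, cw_de h.de]
    simp only [Polynomial.map_add, Polynomial.map_mul]
    noncomm_ring

theorem dd (x : DD ε) : dl δ (dl δ x) = 0 := by
  refine DD.ext ?_ ?_
  · rw [dl_a, dl_a, cw_dd h.dd, zero_a]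
  · rw [dl_b, dl_a, dl_b, zero_b, map_add, cw_dd h.dd, cw_de h.de, cw_der, add_zero, add_neg_cancel]

theorem de (x : DD ε) : dl δ (ep x) = -ep (dl δ x) := by
  refine DD.ext ?_ ?_
  · rw [dl_a, ep_a, neg_a, ep_a, dl_a, cw_de h.de]
  · rw [dl_b, ep_a, ep_b, neg_b, ep_b, dl_b, map_neg, cw_de h.de, derivative_map, Polynomial.map_add]
    abel

theorem tr (x y : DD ε) (hx : ep x = x) : TT T (x * y) = TT T (y * x) := by
  have h1 : x.a.map ε = x.a := congrArg DD.a hx
  have h2 : -x.b.map ε = x.b := congrArg DD.b hx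
  have h3 : x.b.map ε = -x.b := by rw [← h2, neg_neg, h2]
  rw [TT_eq, TT_eq, mul_b, mul_b, h1, map_add, map_add, II_comm h.tr x.a y.b,
    II_comm h.tr y.a x.b]
  have h4 : II T (x.b * y.a.map ε) = II T (x.b * y.a) := by
    have h5 := II_odd h.odd (x.b * y.a.map ε)
    rw [Polynomial.map_mul, map_ee h.ee, h3, neg_mul, map_neg] at h5
    linarith
  rw [h4]
  ring

theorem tro (x y : DD ε) (hx : ep x = -x) (hy : ep y = -y) :
    TT T (x * y) = -TT T (y * x) := by
  have h1 : x.a.map ε = -x.a := congrArg DD.a hx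
  have h2 : y.a.map ε = -y.a := congrArg DD.a hy
  rw [TT_eq, TT_eq, mul_b, mul_b, h1, h2, mul_neg, mul_neg, map_add, map_add, map_neg, map_neg,
    II_comm h.tr x.a y.b, II_comm h.tr y.a x.b]
  ring

theorem cl (x : DD ε) : TT T (dl δ x) = -(T (e1 x.a) - T (e0 x.a)) := by
  rw [TT_eq, dl_b, map_add, II_cl h.cl, II_odd h.odd, II_der, add_zero]

end laws

end DD

end Pool.Agent.H139.LG13
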